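import Pool.Agent.Work.MP_1e1ce6_co.AlphaTwo

/-!
# MP_1e1ce6_co : Brown's question for graphs with independence number at most two
-/

namespace Pool.Agent.Results.MP_1e1ce6_co.AlphaTwo

open Finset Polynomial
open _root_.MP_1e1ce6_co

/-- Let `G` be a graph on `n` vertices, not complete, such that among any three distinct vertices
two are adjacent.  Then every root of the chromatic polynomial of `G` has real part less than
`n - 1`. -/
theorem result : ∀ (V : Type) [Fintype V] (G : SimpleGraph V), G ≠ ⊤ →
    (∀ x y z : V, x ≠ y → y ≠ z → x ≠ z → G.Adj x y ∨ G.Adj y z ∨ G.Adj x z) →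
    ∀ p : ℂ[X], (∀ q : ℕ, 0 < q → p.eval (q : ℂ) = Nat.card (G.Coloring (Fin q))) →
      ∀ z : ℂ, p.eval z = 0 → z.re < Fintype.card V - 1 := by
  classical
  intro V _ G hG hα p hp z hz
  refine no_root_of_ne hG ?_ hp hz
  intro w hw hw0
  rw [← famA_univ]
  exact (famA_matchRec G hα).ne_zero univ hw hw0

end Pool.Agent.Results.MP_1e1ce6_co.AlphaTwo
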