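import Pool.Agent.Work.MP_1e1ce6_co.CoComp

/-!
# MP_1e1ce6_co : Brown's question for cocomparability graphs
-/

namespace Pool.Agent.Results.MP_1e1ce6_co.Cocomparability

open Finset Polynomial
open _root_.MP_1e1ce6_co

/-- Let `V` be a partially ordered set with `n` elements, and let `G` be its incomparability graph
(two elements are adjacent when neither is below the other).  If `G` is not complete then every
root of the chromatic polynomial of `G` has real part less than `n - 1`. -/
theorem result : ∀ (V : Type) [Fintype V] [PartialOrder V] (G : SimpleGraph V),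
    (∀ x y : V, G.Adj x y ↔ ¬ x ≤ y ∧ ¬ y ≤ x) → G ≠ ⊤ →
    ∀ p : ℂ[X], (∀ q : ℕ, 0 < q → p.eval (q : ℂ) = Nat.card (G.Coloring (Fin q))) →
      ∀ z : ℂ, p.eval z = 0 → z.re < Fintype.card V - 1 := by
  classical
  intro V _ _ G hadj hG p hp z hz
  refine no_root_of_ne hG ?_ hp hz
  intro w hw hw0
  have hG' : ∀ u v, ¬ G.Adj u v ↔ u = v ∨ u < v ∨ v < u := by
    intro u v
    rw [hadj]
    constructor
    · intro h
      by_cases h1 : u ≤ v
      · rcases h1.eq_or_lt with h2 | h2
        · exact Or.inl h2
        · exact Or.inr (Or.inl h2)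
      · by_cases h2 : v ≤ u
        · rcases h2.eq_or_lt with h3 | h3
          · exact Or.inl h3.symm
          · exact Or.inr (Or.inr h3)
        · exact absurd ⟨h1, h2⟩ h
    · rintro (h | h | h) ⟨h1, h2⟩
      · exact h1 h.le
      · exact h1 h.le
      · exact h2 h.le
  rw [← chA_univ G (fun x y : V => x < y) hG']
  exact (chA_matchRec (fun x y : V => x < y) (fun x => lt_irrefl x)
    (fun x y z h1 h2 => h1.trans h2)).ne_zero univ hw hw0

end Pool.Agent.Results.MP_1e1ce6_co.Cocomparability
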