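import Pool.Agent.Work.MP_1e1ce6_co.Link

/-!
# MP_1e1ce6_co : Brown's question for graphs whose sigma polynomial has its roots in a sector
-/

namespace Pool.Agent.Results.MP_1e1ce6_co.SigmaSector

open Finset Polynomial
open _root_.MP_1e1ce6_co

/-- Let `G` be a graph on `n` vertices, not complete, and for each `k` let `σ_k` be the number of
partitions of its vertex set into exactly `k` nonempty independent sets.  If every complex root
`s` of `∑ σ_k s^k` satisfies `|Im s| ≤ - Re s`, then every root of the chromatic polynomial of `G`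
has real part less than `n - 1`. -/
theorem result : ∀ (V : Type) [Fintype V] (G : SimpleGraph V), G ≠ ⊤ →
    (∀ s : ℂ, ∑ k ∈ range (Fintype.card V + 1), (sigmaCoeff G k : ℂ) * s ^ k = 0 →
      |s.im| ≤ -s.re) →
    ∀ p : ℂ[X], (∀ q : ℕ, 0 < q → p.eval (q : ℂ) = Nat.card (G.Coloring (Fin q))) →
      ∀ z : ℂ, p.eval z = 0 → z.re < Fintype.card V - 1 := by
  classical
  intro V _ G hG hσ p hp z hz
  refine no_root_of_ne hG ?_ hp hz
  intro w hw hw0
  refine L_ne_zero (good_reverse _ (sigmaPoly G) rfl (monic_sigmaPoly G) ?_) hw hw0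
  intro s hs
  apply hσ
  rw [← hs]
  unfold sigmaPoly
  rw [map_sum]
  apply Finset.sum_congr rfl
  intro k _
  simp

end Pool.Agent.Results.MP_1e1ce6_co.SigmaSector
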